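import Mathlib
import Pool.Agent.Helper913.EPatFinal

set_option autoImplicit false

namespace Pool.Agent.Results.MP_3f2786_lc.NotInferrable

/-- The E-pattern language over the alphabet `Fin k` of a word `α` over the variables `ℕ` and the
terminals `Fin k`: all images of `α` under substitutions (variables may be erased). -/
def ELang (k : ℕ) (α : List (ℕ ⊕ Fin k)) : Set (List (Fin k)) :=
  {w | ∃ σ : ℕ → List (Fin k), w = α.flatMap (Sum.elim σ (fun a => [a]))}

/-- The learner `M` identifies the language of `α` in the limit from every text `t` of it: its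
guesses on the finite initial segments are eventually one fixed word `β` with the same language. -/
def Identifies (k : ℕ) (M : List (List (Fin k)) → List (ℕ ⊕ Fin k)) (α : List (ℕ ⊕ Fin k)) :
    Prop :=
  ∀ t : ℕ → List (Fin k), Set.range t = ELang k α →
    ∃ β : List (ℕ ⊕ Fin k), ELang k β = ELang k α ∧
      ∃ N : ℕ, ∀ n ≥ N, M ((List.range n).map t) = β

/-- `ePAT` over the alphabet `Fin k` is inferrable from positive data. -/
def Inferrable (k : ℕ) : Prop :=
  ∃ M : List (List (Fin k)) → List (ℕ ⊕ Fin k), Computable M ∧
    ∀ α : List (ℕ ⊕ Fin k), α ≠ [] → Identifies k M α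

/-- For every finite alphabet with at least five letters, the class of all E-pattern languages is
not inferrable from positive data. -/
theorem result : ∀ k : ℕ, 5 ≤ k → ¬ Inferrable k := by
  intro k hk
  obtain ⟨n, rfl⟩ : ∃ n, k = n + 3 := ⟨k - 3, by omega⟩
  rintro ⟨M, _, hM⟩
  exact Pool.Agent.Helper913.EPat.not_learnable n (by omega) M
    (fun α hα _ t ht => hM α hα t ht)

end Pool.Agent.Results.MP_3f2786_lc.NotInferrable
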